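import Pool.Agent.H52.TL.Trace
import Pool.Agent.H52.TL.Bd
import Pool.Graph.R_seed8.Y800.Diag

/-!
# One residual representation decides: the finiteness argument
-/

set_option autoImplicit false

namespace Pool.Agent.H52.RO

open Matrix Module Polynomial NumberField IsDedekindDomain Topology Pool.Agent.helper972_fp
open Pool.Agent.Y800 (GQ ZBar InInertia IsGeomFrob)

attribute [local instance 10] DivisionRing.toRatAlgebra

section cont

variable {k : Type} [NormedField k] {n N : ℕ}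

theorem cont_coeff (i : ℕ) :
    Continuous fun M : Matrix (Fin N) (Fin N) k => M.charpoly.coeff i := by
  have h : (fun M : Matrix (Fin N) (Fin N) k => M.charpoly.coeff i) =
      fun M => MvPolynomial.eval (fun s : Fin N × Fin N => M s.1 s.2)
        ((Matrix.charpoly.univ k (Fin N)).coeff i) := by
    funext M
    have h1 := Matrix.charpoly.univ_coeff_eval₂Hom (Fin N) (RingHom.id k)
      (fun s : Fin N × Fin N => M s.1 s.2) i
    exact h1.symm
  rw [h]
  exact (MvPolynomial.continuous_eval _).comp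
    (continuous_pi fun s => continuous_apply_apply s.1 s.2)

/-- vanishes iff the eigenvalues of `A` are among those of `B` -/
noncomputable def DD (A : Matrix (Fin n) (Fin n) k) (B : Matrix (Fin N) (Fin N) k) :
    Matrix (Fin n) (Fin n) k := (aeval A B.charpoly) ^ n

theorem cont_DD {X : Type} [TopologicalSpace X] {A : X → Matrix (Fin n) (Fin n) k}
    {B : X → Matrix (Fin N) (Fin N) k} (hA : Continuous A) (hB : Continuous B) :
    Continuous fun x => DD (A x) (B x) := by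
  unfold DD
  have h : (fun x => aeval (A x) (B x).charpoly) =
      fun x => ∑ i ∈ Finset.range (N + 1), (B x).charpoly.coeff i • (A x) ^ i := by
    funext x
    rw [aeval_eq_sum_range, Matrix.charpoly_natDegree_eq_dim, Fintype.card_fin]
  have h2 : Continuous fun x => aeval (A x) (B x).charpoly := by
    rw [h]
    exact continuous_finset_sum _ fun i _ => ((cont_coeff i).comp hB).smul (hA.pow i)
  exact h2.pow n

theorem DD_zero {A : Matrix (Fin n) (Fin n) k} {B : Matrix (Fin N) (Fin N) k}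
    (h : A.charpoly ∣ B.charpoly ^ n) : DD A B = 0 := by
  obtain ⟨s, hs⟩ := h
  unfold DD
  rw [← map_pow, hs, map_mul, Matrix.aeval_self_charpoly, zero_mul]

end cont

section arith

variable {E : Type} [Field E] [NumberField E]

theorem finite_mem {x : 𝓞 E} (hx : x ≠ 0) :
    {lam : HeightOneSpectrum (𝓞 E) | x ∈ lam.asIdeal}.Finite := by
  have h := Ideal.finite_factors (R := 𝓞 E) (I := Ideal.span {x})
    (by rw [Ne, Ideal.zero_eq_bot, Ideal.span_singleton_eq_bot]; exact hx)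
  refine h.subset fun lam hlam => ?_
  exact Ideal.dvd_span_singleton.2 hlam

theorem zero_of_infinite {L : Set (HeightOneSpectrum (𝓞 E))} (hL : L.Infinite) {x : 𝓞 E}
    (h : ∀ lam ∈ L, x ∈ lam.asIdeal) : x = 0 := by
  by_contra hx
  exact hL ((finite_mem hx).subset h)

end arith

section density

variable {F : Pool.Agent.Results.MP_f68ac8_nt.FinitePropagation.Sub} [FiniteDimensional ℚ F]
  {k : Type} [NormedField k] {n N : ℕ}

/-- a neighbourhood of `1` contains an open subgroup -/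
theorem exists_open_sub {U : Set F.fixingSubgroup} (hU : U ∈ 𝓝 (1 : F.fixingSubgroup)) :
    ∃ V : Subgroup F.fixingSubgroup, IsOpen (V : Set F.fixingSubgroup) ∧
      (V : Set F.fixingSubgroup) ⊆ U := by
  rw [nhds_subtype_eq_comap, Filter.mem_comap] at hU
  obtain ⟨U', hU', hUU⟩ := hU
  obtain ⟨L, hL, hLU⟩ := (krullTopology_mem_nhds_one_iff ℚ (AlgebraicClosure ℚ) U').1 hU'
  refine ⟨(L.fixingSubgroup).comap (F.fixingSubgroup).subtype, ?_, ?_⟩
  · exact (IntermediateField.fixingSubgroup_isOpen L).preimage continuous_subtype_val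
  · intro x hx
    exact hUU (hLU hx)

/-- density of Frobenius elements -/
theorem density (S : Finset ℕ) (hS : ∀ q ∈ S, q.Prime) (ρ : F.fixingSubgroup →* GL (Fin n) k)
    (W : F.fixingSubgroup →* GL (Fin N) k) (hρ : Adm S ρ) (hW : Adm S W)
    (h : ∀ q : ℕ, q.Prime → q ∉ S → ∀ P : Ideal ZBar, P.IsMaximal → (q : ZBar) ∈ P →
      ∀ σ : F.fixingSubgroup, IsGeomFrob q P (σ : GQ) →
        DD (ρ σ : Matrix (Fin n) (Fin n) k) (W σ : Matrix (Fin N) (Fin N) k) = 0)
    (g : F.fixingSubgroup) :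
    DD (ρ g : Matrix (Fin n) (Fin n) k) (W g : Matrix (Fin N) (Fin N) k) = 0 := by
  by_contra hg
  have hc : Continuous fun x : F.fixingSubgroup =>
      DD (ρ (x * g) : Matrix (Fin n) (Fin n) k) (W (x * g) : Matrix (Fin N) (Fin N) k) :=
    cont_DD (Units.continuous_val.comp (hρ.cont.comp (continuous_mul_right g)))
      (Units.continuous_val.comp (hW.cont.comp (continuous_mul_right g)))
  have hU : {x : F.fixingSubgroup | DD (ρ (x * g) : Matrix (Fin n) (Fin n) k)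
      (W (x * g) : Matrix (Fin N) (Fin N) k) ≠ 0} ∈ 𝓝 (1 : F.fixingSubgroup) := by
    refine (isOpen_ne.preimage hc).mem_nhds ?_
    show DD (ρ (1 * g) : Matrix (Fin n) (Fin n) k) (W (1 * g) : Matrix (Fin N) (Fin N) k) ≠ 0
    rw [one_mul]
    exact hg
  obtain ⟨V, hV, hVU⟩ := exists_open_sub hU
  obtain ⟨K₀, hK₀⟩ : ∃ K₀ : Subgroup F.fixingSubgroup, K₀ = (ρ.prod W).ker := ⟨_, rfl⟩
  have hn : K₀.Normal := by rw [hK₀]; infer_instance
  have hmem : ∀ x, x ∈ K₀ ↔ ρ x = 1 ∧ W x = 1 := by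
    intro x
    rw [hK₀, MonoidHom.mem_ker, MonoidHom.prod_apply, Prod.mk_eq_one]
  obtain ⟨𝒯, h𝒯, hD⟩ := Pool.Agent.R390.SF.exists_prime_set' (F := F) S S hS (V ⊔ K₀).index
  obtain ⟨q, hq, P, hP, hqP, σ, hσ, hσg⟩ := hD (V ⊔ K₀)
    (Subgroup.isOpen_mono le_sup_left hV) le_rfl
    (fun q hq hqS P hP hqP τ hτ => Subgroup.mem_sup_right
      ((hmem τ).2 ⟨hρ.unr q hq hqS P hP hqP τ hτ, hW.unr q hq hqS P hP hqP τ hτ⟩)) g
  rw [Subgroup.mem_sup_of_normal_right] at hσg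
  obtain ⟨u, hu, x, hx, hux⟩ := hσg
  obtain ⟨hx1, hx2⟩ := (hmem x).1 hx
  have hσ' : σ = u * x * g := by rw [hux]; group
  have h1 : ρ σ = ρ (u * g) := by
    rw [hσ', map_mul, map_mul, hx1, mul_one, map_mul]
  have h2 : W σ = W (u * g) := by
    rw [hσ', map_mul, map_mul, hx2, mul_one, map_mul]
  have h3 := h q (h𝒯 q hq).1 (h𝒯 q hq).2 P hP hqP σ hσ
  rw [h1, h2] at h3
  exact hVU hu h3

end density

section main

variable {F : Pool.Agent.Results.MP_f68ac8_nt.FinitePropagation.Sub} [FiniteDimensional ℚ F]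
  {k : Type} [NormedField k] {n N : ℕ} {E : Type} [Field E] [NumberField E]

/-- Frobenius polynomials over the ring of integers of `E`, of bounded complex size -/
structure Poly (ι : E →+* k) (b : Ideal (𝓞 F) → ℝ) (S : Finset ℕ)
    (ρ : F.fixingSubgroup →* GL (Fin n) k) (f : Ideal (𝓞 F) → (𝓞 E)[X]) : Prop where
  frob : ∀ q : ℕ, q.Prime → q ∉ S → ∀ P : Ideal ZBar, P.IsMaximal → (q : ZBar) ∈ P →
    ∀ σ : F.fixingSubgroup, FrobF F P (σ : GQ) →
      (ρ σ : Matrix (Fin n) (Fin n) k).charpoly =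
        (f (P.under (𝓞 F))).map (ι.comp (algebraMap (𝓞 E) E))
  bd : ∀ q : ℕ, q.Prime → q ∉ S → ∀ P : Ideal ZBar, P.IsMaximal → (q : ZBar) ∈ P →
    ∀ (φ : E →+* ℂ) (z : ℂ),
      ((f (P.under (𝓞 F))).map (φ.comp (algebraMap (𝓞 E) E))).eval z = 0 → ‖z‖ ≤ b (P.under (𝓞 F))

/-- the divisibility modulo `lam` -/
def DivMod (S : Finset ℕ) (n : ℕ) (lam : HeightOneSpectrum (𝓞 E))
    (f g : Ideal (𝓞 F) → (𝓞 E)[X]) : Prop :=
  ∀ q : ℕ, q.Prime → q ∉ S → (q : 𝓞 E) ∉ lam.asIdeal → ∀ P : Ideal ZBar, P.IsMaximal →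
    (q : ZBar) ∈ P → ∀ σ : F.fixingSubgroup, FrobF F P (σ : GQ) →
      ∀ i, ((g (P.under (𝓞 F))) ^ n %ₘ (f (P.under (𝓞 F)))).coeff i ∈ lam.asIdeal

theorem Poly.at {ι : E →+* k} {b : Ideal (𝓞 F) → ℝ} {S : Finset ℕ}
    {ρ : F.fixingSubgroup →* GL (Fin n) k} {f : Ideal (𝓞 F) → (𝓞 E)[X]} (h : Poly ι b S ρ f)
    {q : ℕ} (hq : q.Prime) (hqS : q ∉ S) :
    At (fun v => {f : k[X] | Pool.Agent.H52.TL.Bdd ι 1 (b v) f ∧ f.Monic ∧ f.natDegree = n}) ρ q := by
  intro P hP hqP σ hσ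
  refine ⟨⟨(f (P.under (𝓞 F))).map (algebraMap (𝓞 E) E), ?_, ?_, ?_⟩, Matrix.charpoly_monic _, ?_⟩
  · rw [Polynomial.map_map]
    exact (h.frob q hq hqS P hP hqP σ hσ).symm
  · intro i
    rw [Nat.cast_one, one_mul, Polynomial.coeff_map]
    exact NumberField.RingOfIntegers.isIntegral_coe _
  · intro φ z hz
    rw [Polynomial.map_map] at hz
    exact h.bd q hq hqS P hP hqP φ z hz
  · rw [Matrix.charpoly_natDegree_eq_dim, Fintype.card_fin]

theorem inj_map (ι : E →+* k) : Function.Injective (ι.comp (algebraMap (𝓞 E) E)) :=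
  ι.injective.comp (NumberField.RingOfIntegers.coe_injective)

theorem core (p : ℕ) [Fact p.Prime] [NormedAlgebra ℚ_[p] k] [FiniteDimensional ℚ_[p] k]
    (ι : E →+* k) (S : Finset ℕ) (hS : ∀ q ∈ S, q.Prime) (n N : ℕ) (b : Ideal (𝓞 F) → ℝ) :
    ∃ Λ₀ : Set (HeightOneSpectrum (𝓞 E)), Λ₀.Finite ∧
      ∀ (ρ : F.fixingSubgroup →* GL (Fin n) k) (f : Ideal (𝓞 F) → (𝓞 E)[X])
        (W : F.fixingSubgroup →* GL (Fin N) k) (g : Ideal (𝓞 F) → (𝓞 E)[X]),
        Adm S ρ → Poly ι b S ρ f → Adm S W → Poly ι b S W g →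
        ∀ lam, lam ∉ Λ₀ → DivMod S n lam f g → ∀ x : F.fixingSubgroup,
          DD (ρ x : Matrix (Fin n) (Fin n) k) (W x : Matrix (Fin N) (Fin N) k) = 0 := by
  classical
  have hchar : CharZero k := charZero_of_injective_algebraMap (algebraMap ℚ_[p] k).injective
  have hfin : ∀ r, ∀ v : Ideal (𝓞 F),
      {f : k[X] | Pool.Agent.H52.TL.Bdd ι 1 (b v) f ∧ f.Monic ∧ f.natDegree = r}.Finite :=
    fun r v => Pool.Agent.H52.TL.bdd_finite ι r 1 (b v) one_pos
  obtain ⟨T₁, hT₁, h1⟩ := Pool.Agent.H52.TL.finite_traces (F := F) (k := k) p n S hS _ (hfin n)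
  obtain ⟨T₂, hT₂, h2⟩ := Pool.Agent.H52.TL.finite_traces (F := F) (k := k) p N S hS _ (hfin N)
  let L : (F.fixingSubgroup → k) → (F.fixingSubgroup → k) → Set (HeightOneSpectrum (𝓞 E)) :=
    fun s t => {lam | ∃ (ρ : F.fixingSubgroup →* GL (Fin n) k) (f : Ideal (𝓞 F) → (𝓞 E)[X])
        (W : F.fixingSubgroup →* GL (Fin N) k) (g : Ideal (𝓞 F) → (𝓞 E)[X]),
        Adm S ρ ∧ Poly ι b S ρ f ∧ Adm S W ∧ Poly ι b S W g ∧ tr ρ = s ∧ tr W = t ∧
        DivMod S n lam f g ∧ ¬ ∀ x : F.fixingSubgroup,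
          DD (ρ x : Matrix (Fin n) (Fin n) k) (W x : Matrix (Fin N) (Fin N) k) = 0}
  have hL : ∀ s t, (L s t).Finite := by
    intro s t
    by_contra hinf
    obtain ⟨lam₀, ρ₀, f₀, W₀, g₀, a1, a2, a3, a4, a5, a6, -, a8⟩ := Set.Infinite.nonempty hinf
    apply a8
    refine density S hS ρ₀ W₀ a1 a3 ?_
    intro q hq hqS P hP hqP σ hσ
    have hσF : FrobF F P (σ : GQ) := frobF_of_geom hq hP hqP hσ
    have hq0 : (q : 𝓞 E) ≠ 0 := by exact_mod_cast hq.ne_zero
    have hinf' : (L s t \ {lam : HeightOneSpectrum (𝓞 E) | (q : 𝓞 E) ∈ lam.asIdeal}).Infinite :=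
      Set.Infinite.diff hinf (finite_mem hq0)
    have hzero : (g₀ (P.under (𝓞 F))) ^ n %ₘ (f₀ (P.under (𝓞 F))) = 0 := by
      refine Polynomial.ext fun i => ?_
      rw [Polynomial.coeff_zero]
      refine zero_of_infinite hinf' ?_
      rintro lam ⟨⟨ρ, f, W, g, b1, b2, b3, b4, b5, b6, b7, -⟩, hlam⟩
      have e1 : f (P.under (𝓞 F)) = f₀ (P.under (𝓞 F)) := by
        apply Polynomial.map_injective _ (inj_map (k := k) ι)
        rw [← b2.frob q hq hqS P hP hqP σ hσF, ← a2.frob q hq hqS P hP hqP σ hσF]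
        exact Pool.Agent.Y800.charpoly_of_traces ρ ρ₀ (fun y => congrFun (b5.trans a5.symm) y) σ
      have e2 : g (P.under (𝓞 F)) = g₀ (P.under (𝓞 F)) := by
        apply Polynomial.map_injective _ (inj_map (k := k) ι)
        rw [← b4.frob q hq hqS P hP hqP σ hσF, ← a4.frob q hq hqS P hP hqP σ hσF]
        exact Pool.Agent.Y800.charpoly_of_traces W W₀ (fun y => congrFun (b6.trans a6.symm) y) σ
      have := b7 q hq hqS hlam P hP hqP σ hσF i
      rwa [e1, e2] at this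
    have hmon : (f₀ (P.under (𝓞 F))).Monic := by
      apply Polynomial.monic_of_injective (inj_map (k := k) ι)
      rw [← a2.frob q hq hqS P hP hqP σ hσF]
      exact Matrix.charpoly_monic _
    have hdvd : f₀ (P.under (𝓞 F)) ∣ (g₀ (P.under (𝓞 F))) ^ n :=
      (Polynomial.modByMonic_eq_zero_iff_dvd hmon).1 hzero
    apply DD_zero
    rw [a2.frob q hq hqS P hP hqP σ hσF, a4.frob q hq hqS P hP hqP σ hσF, ← Polynomial.map_pow]
    exact Polynomial.map_dvd _ hdvd
  refine ⟨⋃ s ∈ h1.toFinset, ⋃ t ∈ h2.toFinset, L s t, ?_, ?_⟩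
  · exact Set.Finite.biUnion (Finset.finite_toSet _) fun s _ =>
      Set.Finite.biUnion (Finset.finite_toSet _) fun t _ => hL s t
  · intro ρ f W g hρ hf hW hg lam hlam hdiv
    by_contra hcon
    apply hlam
    refine Set.mem_biUnion (x := tr ρ) (h1.mem_toFinset.2
      ⟨ρ, hρ, fun q hq => hf.at (hT₁ q hq).1 (hT₁ q hq).2, rfl⟩) ?_
    refine Set.mem_biUnion (x := tr W) (h2.mem_toFinset.2
      ⟨W, hW, fun q hq => hg.at (hT₂ q hq).1 (hT₂ q hq).2, rfl⟩) ?_
    exact ⟨ρ, f, W, g, hρ, hf, hW, hg, rfl, rfl, hdiv, hcon⟩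

end main

end Pool.Agent.H52.RO
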